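import Mathlib

/-!
# MP_3951c0_co: the upper broadcast number is not monotone under isometric subgraphs

`G = K_m □ K_2` is an isometric subgraph of the graph `H` obtained from it by adding, for each of the two
copies of `K_m`, a new vertex joined to all vertices of that copy. Here `Γ_b(G) ≥ m` and `Γ_b(H) ≤ 6`.
-/

set_option autoImplicit false

namespace Pool.Agent.Results.MP_3951c0_co.NotMonotone

section Definitions

variable {V : Type} [Fintype V] [DecidableEq V]

/-- The eccentricity of `v`. -/
noncomputable def ecc (G : SimpleGraph V) (v : V) : ℕ := Finset.univ.sup fun u => G.dist v u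

/-- `f` is a broadcast: `f v ≤ e(v)` for all `v`. -/
def IsBroadcast (G : SimpleGraph V) (f : V → ℕ) : Prop := ∀ v, f v ≤ ecc G v

/-- `f` is dominating: every `u` hears some `v`, that is, `f v > 0` and `d(u, v) ≤ f v`. -/
def Dominating (G : SimpleGraph V) (f : V → ℕ) : Prop := ∀ u, ∃ v, 0 < f v ∧ G.dist u v ≤ f v

/-- `f` is a minimal dominating broadcast: no broadcast `g ≤ f`, `g ≠ f`, is dominating. -/
def MinimalDominating (G : SimpleGraph V) (f : V → ℕ) : Prop :=
  IsBroadcast G f ∧ Dominating G f ∧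
    ∀ g : V → ℕ, IsBroadcast G g → (∀ v, g v ≤ f v) → g ≠ f → ¬ Dominating G g

/-- The upper broadcast number `Γ_b(G)`: the largest cost of a minimal dominating broadcast. -/
noncomputable def upperBroadcast (G : SimpleGraph V) : ℕ :=
  sSup {c : ℕ | ∃ f : V → ℕ, MinimalDominating G f ∧ ∑ v, f v = c}

end Definitions

/-- `G` is (via the injection `φ`) an isometric subgraph of `H`. -/
def IsometricSubgraph {V W : Type} (G : SimpleGraph V) (H : SimpleGraph W) (φ : V → W) : Prop :=
  Function.Injective φ ∧ (∀ u v, G.Adj u v → H.Adj (φ u) (φ v)) ∧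
    ∀ u v, G.dist u v = H.dist (φ u) (φ v)

/-- `K_m □ K_2`. -/
def G (m : ℕ) : SimpleGraph (Fin m × Bool) where
  Adj u v := (u.1 ≠ v.1 ∧ u.2 = v.2) ∨ (u.1 = v.1 ∧ u.2 ≠ v.2)
  symm := ⟨by
    rintro u v (⟨h1, h2⟩ | ⟨h1, h2⟩)
    · exact Or.inl ⟨h1.symm, h2.symm⟩
    · exact Or.inr ⟨h1.symm, h2.symm⟩⟩
  loopless := ⟨by
    rintro u (⟨h1, _⟩ | ⟨_, h2⟩)
    · exact h1 rfl
    · exact h2 rfl⟩

/-- Adjacency of the larger graph. -/
def adjH {m : ℕ} : (Fin m × Bool) ⊕ Bool → (Fin m × Bool) ⊕ Bool → Prop
  | .inl u, .inl v => (G m).Adj u v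
  | .inl u, .inr b => u.2 = b
  | .inr b, .inl u => u.2 = b
  | .inr _, .inr _ => False

/-- The larger graph. -/
def H (m : ℕ) : SimpleGraph ((Fin m × Bool) ⊕ Bool) where
  Adj := adjH
  symm := ⟨by
    rintro (u | b) (v | c) h
    · exact SimpleGraph.Adj.symm (G := G m) h
    · exact h
    · exact h
    · exact h⟩
  loopless := ⟨by
    rintro (u | b) h
    · exact (G m).irrefl h
    · exact h⟩

theorem G_connected {m : ℕ} (hm : 2 ≤ m) : (G m).Connected := by
  have h0 : ∀ v, (G m).Reachable (⟨0, by omega⟩, true) v := by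
    rintro ⟨i, b⟩
    have h1 : (G m).Reachable (⟨0, by omega⟩, true) (⟨0, by omega⟩, b) := by
      by_cases hb : true = b
      · rw [hb]
      · exact SimpleGraph.Adj.reachable (Or.inr ⟨rfl, hb⟩)
    refine h1.trans ?_
    by_cases hi : (⟨0, by omega⟩ : Fin m) = i
    · rw [hi]
    · exact SimpleGraph.Adj.reachable (Or.inl ⟨hi, rfl⟩)
  have : Nonempty (Fin m × Bool) := ⟨(⟨0, by omega⟩, true)⟩
  exact ⟨fun u v => (h0 u).symm.trans (h0 v)⟩

theorem G_dist_le {m : ℕ} (hm : 2 ≤ m) (u v : Fin m × Bool) : (G m).dist u v ≤ 2 := by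
  have h1 : ∀ x y : Fin m × Bool, x.1 = y.1 → (G m).dist x y ≤ 1 := by
    rintro ⟨i, b⟩ ⟨j, c⟩ h
    simp only at h
    subst h
    by_cases hb : b = c
    · rw [hb, SimpleGraph.dist_self]; omega
    · rw [SimpleGraph.dist_eq_one_iff_adj.2 (Or.inr ⟨rfl, hb⟩)]
  have h2 : ∀ x y : Fin m × Bool, x.2 = y.2 → (G m).dist x y ≤ 1 := by
    rintro ⟨i, b⟩ ⟨j, c⟩ h
    simp only at h
    subst h
    by_cases hi : i = j
    · rw [hi, SimpleGraph.dist_self]; omega
    · rw [SimpleGraph.dist_eq_one_iff_adj.2 (Or.inl ⟨hi, rfl⟩)]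
  have h3 := (G_connected hm).dist_triangle (u := u) (v := (u.1, v.2)) (w := v)
  have h4 := h1 u (u.1, v.2) rfl
  have h5 := h2 (u.1, v.2) v rfl
  omega

theorem H_connected {m : ℕ} (hm : 2 ≤ m) : (H m).Connected := by
  have hr : ∀ u v : Fin m × Bool, (H m).Reachable (.inl u) (.inl v) := by
    intro u v
    obtain ⟨p⟩ := (G_connected hm).preconnected u v
    induction p with
    | nil => exact SimpleGraph.Reachable.refl _
    | cons h _ ih => exact (SimpleGraph.Adj.reachable (G := H m) (by exact h)).trans ih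
  have h0 : ∀ v, (H m).Reachable (.inl (⟨0, by omega⟩, true)) v := by
    rintro (v | b)
    · exact hr _ _
    · refine (hr _ (⟨0, by omega⟩, b)).trans (SimpleGraph.Adj.reachable ?_)
      exact (rfl : ((⟨0, by omega⟩ : Fin m), b).2 = b)
  have : Nonempty ((Fin m × Bool) ⊕ Bool) := ⟨.inr true⟩
  exact ⟨fun u v => (h0 u).symm.trans (h0 v)⟩

theorem H_dist_le_G {m : ℕ} (hm : 2 ≤ m) (u v : Fin m × Bool) :
    (H m).dist (.inl u) (.inl v) ≤ (G m).dist u v := by
  obtain ⟨p, hp⟩ := (G_connected hm).exists_walk_length_eq_dist u v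
  rw [← hp]
  clear hp
  induction p with
  | nil => rw [SimpleGraph.dist_self]; omega
  | @cons a b c h q ih =>
    have h1 := (H_connected hm).dist_triangle (u := (.inl a : (Fin m × Bool) ⊕ Bool))
      (v := .inl b) (w := .inl c)
    have hadj : (H m).Adj (.inl a) (.inl b) := h
    rw [SimpleGraph.dist_eq_one_iff_adj.2 hadj] at h1
    rw [SimpleGraph.Walk.length_cons]
    omega

theorem isometric {m : ℕ} (hm : 2 ≤ m) : IsometricSubgraph (G m) (H m) Sum.inl := by
  refine ⟨Sum.inl_injective, fun u v h => h, fun u v => ?_⟩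
  apply le_antisymm _ (H_dist_le_G hm u v)
  rcases Nat.lt_or_ge ((H m).dist (.inl u) (.inl v)) 2 with h | h
  · interval_cases hd : (H m).dist (.inl u) (.inl v)
    · have := ((H_connected hm).dist_eq_zero_iff).1 hd
      rw [Sum.inl.inj this, SimpleGraph.dist_self]
    · have hadj : (H m).Adj (.inl u) (.inl v) := SimpleGraph.dist_eq_one_iff_adj.1 hd
      have hadj' : (G m).Adj u v := hadj
      rw [SimpleGraph.dist_eq_one_iff_adj.2 hadj']
  · exact (G_dist_le hm u v).trans h

/-- the broadcast on `K_m □ K_2` -/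
def f (m : ℕ) : Fin m × Bool → ℕ := fun v => if v.2 = true then 1 else 0

theorem f_min {m : ℕ} (hm : 2 ≤ m) : MinimalDominating (G m) (f m) := by
  refine ⟨?_, ?_, ?_⟩
  · rintro ⟨i, b⟩
    have h1 : 1 ≤ ecc (G m) (i, b) := by
      have hadj : (G m).Adj (i, b) (i, !b) := Or.inr ⟨rfl, by simp⟩
      calc 1 = (G m).dist (i, b) (i, !b) := (SimpleGraph.dist_eq_one_iff_adj.2 hadj).symm
        _ ≤ _ := Finset.le_sup (f := fun u => (G m).dist (i, b) u) (Finset.mem_univ _)
    refine le_trans ?_ h1
    unfold f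
    split_ifs <;> omega
  · rintro ⟨i, b⟩
    refine ⟨(i, true), by simp [f], ?_⟩
    rcases b with _ | _
    · rw [SimpleGraph.dist_eq_one_iff_adj.2 (show (G m).Adj (i, false) (i, true) from
        Or.inr ⟨rfl, by simp⟩)]
      simp [f]
    · rw [SimpleGraph.dist_self]; omega
  · intro g _ hgf hne hgd
    obtain ⟨⟨i, b⟩, hv⟩ := Function.ne_iff.1 hne
    have hlt : g (i, b) < f m (i, b) := lt_of_le_of_ne (hgf _) hv
    have hb : b = true := by
      by_contra hb
      simp [f, hb] at hlt
    subst hb
    have hg0 : g (i, true) = 0 := by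
      simp [f] at hlt
      exact hlt
    obtain ⟨⟨j, c⟩, h1, h2⟩ := hgd (i, false)
    have h3 := hgf (j, c)
    have hc : c = true := by
      by_contra hc
      simp [f, hc] at h3
      omega
    subst hc
    have hji : j ≠ i := by
      rintro rfl
      omega
    have h4 : g (j, true) ≤ 1 := by simpa [f] using h3
    have h5 : (G m).dist (i, false) (j, true) ≤ 1 := h2.trans h4
    have h6 : (G m).dist (i, false) (j, true) ≠ 0 := by
      intro h
      have := ((G_connected hm).dist_eq_zero_iff).1 h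
      simp at this
    have h7 : (G m).Adj (i, false) (j, true) := SimpleGraph.dist_eq_one_iff_adj.1 (by omega)
    rcases h7 with ⟨_, h8⟩ | ⟨h8, _⟩
    · simp at h8
    · exact hji h8.symm

theorem upperBroadcast_G {m : ℕ} (hm : 2 ≤ m) : m ≤ upperBroadcast (G m) := by
  apply le_csSup
  · refine ⟨∑ v, ecc (G m) v, ?_⟩
    rintro c ⟨g, hg, rfl⟩
    exact Finset.sum_le_sum fun v _ => hg.1 v
  · refine ⟨f m, f_min hm, ?_⟩
    rw [Fintype.sum_prod_type]
    simp [f]

/-- which of the two cliques a vertex of `H` belongs to -/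
def cell {m : ℕ} : (Fin m × Bool) ⊕ Bool → Bool
  | .inl u => u.2
  | .inr b => b

theorem dist_cell {m : ℕ} (x y : (Fin m × Bool) ⊕ Bool) (h : cell x = cell y) :
    (H m).dist x y ≤ 1 := by
  by_cases hxy : x = y
  · rw [hxy, SimpleGraph.dist_self]; omega
  · have hadj : (H m).Adj x y := by
      rcases x with ⟨i, b⟩ | b <;> rcases y with ⟨j, c⟩ | c
      · have hbc : b = c := h
        subst hbc
        refine Or.inl ⟨?_, rfl⟩
        intro hij
        apply hxy
        simp only at hij
        rw [hij]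
      · exact h
      · exact h.symm
      · exact absurd (congrArg Sum.inr h) hxy
    rw [SimpleGraph.dist_eq_one_iff_adj.2 hadj]

theorem H_dist_le {m : ℕ} (hm : 2 ≤ m) (x y : (Fin m × Bool) ⊕ Bool) : (H m).dist x y ≤ 3 := by
  have h1 := dist_cell x (.inl (⟨0, by omega⟩, cell x)) rfl
  have h2 := dist_cell (.inl (⟨0, by omega⟩, cell y)) y rfl
  have h3 : (H m).dist (.inl (⟨0, by omega⟩, cell x)) (.inl (⟨0, by omega⟩, cell y)) ≤ 1 := by
    by_cases h : cell x = cell y
    · rw [h, SimpleGraph.dist_self]; omega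
    · have hadj : (H m).Adj (.inl (⟨0, by omega⟩, cell x)) (.inl (⟨0, by omega⟩, cell y)) :=
        Or.inr ⟨rfl, h⟩
      rw [SimpleGraph.dist_eq_one_iff_adj.2 hadj]
  have h4 := (H_connected hm).dist_triangle (u := x) (v := .inl (⟨0, by omega⟩, cell x)) (w := y)
  have h5 := (H_connected hm).dist_triangle (u := (.inl (⟨0, by omega⟩, cell x) :
    (Fin m × Bool) ⊕ Bool)) (v := .inl (⟨0, by omega⟩, cell y)) (w := y)
  omega

/-- If the simplicial vertex of a clique hears `y`, so does the whole clique. -/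
theorem hear_cell {m : ℕ} (hm : 2 ≤ m) (x y : (Fin m × Bool) ⊕ Bool) (r : ℕ) (hr : 0 < r)
    (h : (H m).dist (.inr (cell x)) y ≤ r) : (H m).dist x y ≤ r := by
  by_cases hy : y = .inr (cell x)
  · exact (dist_cell x y (by rw [hy]; rfl)).trans hr
  · obtain ⟨p, hp⟩ := (H_connected hm).exists_walk_length_eq_dist (.inr (cell x)) y
    cases p with
    | nil => exact absurd rfl hy
    | @cons _ z _ hadj q =>
      have hz : cell x = cell z := by
        rcases z with u | b
        · exact (show u.2 = cell x from hadj).symm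
        · exact absurd hadj id
      have h1 := dist_cell x z hz
      have h2 : (H m).dist z y ≤ q.length := SimpleGraph.dist_le q
      have h3 := (H_connected hm).dist_triangle (u := x) (v := z) (w := y)
      rw [SimpleGraph.Walk.length_cons] at hp
      omega

theorem upperBroadcast_H {m : ℕ} (hm : 2 ≤ m) : upperBroadcast (H m) ≤ 6 := by
  classical
  apply csSup_le'
  rintro c ⟨g, ⟨hb, hd, hmin⟩, rfl⟩
  -- private vertices
  have hpn : ∀ v, 0 < g v → ∃ p, ∀ v', 0 < g v' → (H m).dist p v' ≤ g v' → v' = v := by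
    intro v hv
    have hnd := hmin (Function.update g v (g v - 1)) (by
        intro z
        by_cases hz : z = v
        · subst hz; rw [Function.update_self]; exact (Nat.sub_le _ _).trans (hb z)
        · rw [Function.update_of_ne hz]; exact hb z)
      (by
        intro z
        by_cases hz : z = v
        · subst hz; rw [Function.update_self]; exact Nat.sub_le _ _
        · rw [Function.update_of_ne hz])
      (by
        intro h
        have := congrFun h v
        rw [Function.update_self] at this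
        omega)
    unfold Dominating at hnd
    push Not at hnd
    obtain ⟨p, hp⟩ := hnd
    refine ⟨p, fun v' hv' hdist => ?_⟩
    by_contra hne
    have := hp v' (by rw [Function.update_of_ne hne]; exact hv')
    rw [Function.update_of_ne hne] at this
    omega
  choose! p hp using hpn
  set S : Finset ((Fin m × Bool) ⊕ Bool) := Finset.univ.filter fun v => 0 < g v with hS
  have hcard : S.card ≤ 2 := by
    have : S.card ≤ (Finset.univ : Finset Bool).card := by
      apply Finset.card_le_card_of_injOn (fun v => cell (p v)) (fun _ _ => Finset.mem_univ _)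
      intro v hv v' hv' hc
      have hv0 : 0 < g v := (Finset.mem_filter.1 hv).2
      have hv0' : 0 < g v' := (Finset.mem_filter.1 hv').2
      simp only at hc
      obtain ⟨y, hy0, hyd⟩ := hd (.inr (cell (p v)))
      have h1 := hp v hv0 y hy0 (hear_cell hm (p v) y (g y) hy0 hyd)
      have h2 := hp v' hv0' y hy0 (hear_cell hm (p v') y (g y) hy0 (by rw [← hc]; exact hyd))
      rw [← h1, ← h2]
    simpa using this
  calc ∑ v, g v = ∑ v ∈ S, g v := by
        symm
        apply Finset.sum_subset (Finset.subset_univ _)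
        intro v _ hv
        by_contra h
        exact hv (Finset.mem_filter.2 ⟨Finset.mem_univ _, Nat.pos_of_ne_zero h⟩)
    _ ≤ ∑ _v ∈ S, 3 := by
        apply Finset.sum_le_sum
        intro v _
        refine (hb v).trans ?_
        exact Finset.sup_le fun u _ => H_dist_le hm v u
    _ = S.card * 3 := by rw [Finset.sum_const, smul_eq_mul]
    _ ≤ 6 := by omega

/-- For every `M` there are connected graphs `G`, `H` with `G` an isometric subgraph of `H` and
`Γ_b(G) > M * Γ_b(H)`, `Γ_b(G) > Γ_b(H)`. -/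
theorem result : ∀ M : ℕ, ∃ (V W : Type) (_ : Fintype V) (_ : DecidableEq V) (_ : Fintype W)
    (_ : DecidableEq W) (G : SimpleGraph V) (H : SimpleGraph W) (φ : V → W),
    G.Connected ∧ H.Connected ∧ IsometricSubgraph G H φ ∧
      upperBroadcast H < upperBroadcast G ∧ M * upperBroadcast H < upperBroadcast G := by
  intro M
  have hm : 2 ≤ 6 * M + 7 := by omega
  refine ⟨Fin (6 * M + 7) × Bool, (Fin (6 * M + 7) × Bool) ⊕ Bool, inferInstance, inferInstance,
    inferInstance, inferInstance, G _, H _, Sum.inl, G_connected hm, H_connected hm, isometric hm,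
    ?_, ?_⟩
  · have h1 := upperBroadcast_H hm
    have h2 := upperBroadcast_G hm
    omega
  · have h1 := upperBroadcast_H hm
    have h2 := upperBroadcast_G hm
    calc M * upperBroadcast (H (6 * M + 7)) ≤ M * 6 := Nat.mul_le_mul_left _ h1
      _ < 6 * M + 7 := by omega
      _ ≤ _ := h2

end Pool.Agent.Results.MP_3951c0_co.NotMonotone
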